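import Mathlib

set_option autoImplicit false

namespace Pool.Agent.Results.MP_ca8ef0_co.NotUniform

open Finset

/-- The halfspace `a₀ + a₁x₁ + ⋯ + aₙxₙ ≥ 0` of the cube `{-1,1}^n`. -/
def halfspace {n : ℕ} (a₀ : ℝ) (a : Fin n → ℝ) : Set (Fin n → ℤˣ) :=
  {x | 0 ≤ a₀ + ∑ i, a i * ((x i : ℤ) : ℝ)}

/-- `A` is `C`-bi-Lipschitz transitive for the Hamming distance. -/
def Transitive {n : ℕ} (C : ℝ) (A : Set (Fin n → ℤˣ)) : Prop :=
  ∀ x y : A, ∃ f : A → A, Function.Bijective f ∧ f x = y ∧ f y = x ∧ ∀ z w : A, z ≠ w →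
    1 / C ≤ (hammingDist (f z).1 (f w).1 : ℝ) / hammingDist z.1 w.1 ∧
      (hammingDist (f z).1 (f w).1 : ℝ) / hammingDist z.1 w.1 ≤ C

lemma mem_iff {n : ℕ} (w : Fin n → ℕ) (K : ℕ) (z : Fin n → ℤˣ) :
    z ∈ halfspace (2 * K - ∑ i, (w i : ℝ)) (fun i => -(w i : ℝ)) ↔
      ∑ i ∈ univ.filter (fun i => z i = 1), w i ≤ K := by
  have : ∑ i, -(w i : ℝ) * ((z i : ℤ) : ℝ) =
      ∑ i, (w i : ℝ) - 2 * ((∑ i ∈ univ.filter (fun i => z i = 1), w i : ℕ) : ℝ) := by
    rw [sum_filter, Nat.cast_sum, mul_sum, ← sum_sub_distrib]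
    refine sum_congr rfl fun i _ => ?_
    rcases Int.units_eq_one_or (z i) with h | h <;> simp [h]
    ring
  rw [halfspace, Set.mem_ofPred_eq, this, ← Nat.cast_le (α := ℝ)]
  constructor <;> intro h <;> linarith

theorem result : ¬ ∃ C : ℝ, 1 ≤ C ∧ ∀ (n : ℕ), 1 ≤ n → ∀ (a₀ : ℝ) (a : Fin n → ℝ),
    Transitive C (halfspace a₀ a) := by
  rintro ⟨C, -, h⟩
  obtain ⟨K, hK⟩ := exists_nat_gt C
  set m := 2 ^ K + 1 with hm
  let w : Fin (K + m) → ℕ := Fin.addCases (fun _ => 1) fun _ => K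
  let x : Fin (K + m) → ℤˣ := fun _ => -1
  let y : Fin (K + m) → ℤˣ := Fin.addCases (fun _ => 1) fun _ => -1
  have hx := (mem_iff w K x).2 (by simp [x])
  have hy := (mem_iff w K y).2 (by simp [sum_filter, Fin.sum_univ_add, w, y])
  have he := fun j : Fin m => (mem_iff w K (Function.update x (Fin.natAdd K j) 1)).2 (by
    have : univ.filter (fun i => Function.update x (Fin.natAdd K j) 1 i = 1) = {Fin.natAdd K j} := by
      ext i; by_cases hi : i = Fin.natAdd K j <;> simp [hi, x]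
    simp [this, w])
  obtain ⟨f, hf, hxy, -, hd⟩ := h (K + m) (hm ▸ Nat.le_add_left 1 (K + 2 ^ K)) _ _ ⟨x, hx⟩ ⟨y, hy⟩
  have key : ∀ j k : Fin m, (f ⟨_, he j⟩).1 (Fin.natAdd K k) = -1 := by
    intro j k
    by_contra hk
    have hk := (Int.units_eq_one_or _).resolve_right hk
    have h1 := (mem_iff w K _).1 (f ⟨_, he j⟩).2
    have h2 := (hd ⟨_, he j⟩ ⟨x, hx⟩ (fun e => by
      simpa [x] using congrFun (congrArg Subtype.val e) (Fin.natAdd K j))).2
    have h3 : hammingDist (Function.update x (Fin.natAdd K j) 1) x = 1 := by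
      rw [hammingDist, card_eq_one]
      exact ⟨Fin.natAdd K j, by ext i; by_cases hi : i = Fin.natAdd K j <;> simp [hi, x]⟩
    rw [hxy] at h2
    simp only [h3, Nat.cast_one, div_one] at h2
    generalize (f ⟨_, he j⟩).1 = z at *
    have h4 : ∀ i, z (Fin.castAdd m i) ≠ 1 := fun i hi => by
      have := sum_le_sum_of_subset (f := w) (show ({Fin.castAdd m i, Fin.natAdd K k} : Finset _) ⊆
        univ.filter (fun i => z i = 1) by simp [insert_subset_iff, hi, hk])
      rw [sum_pair (by simp [Fin.ext_iff]; omega)] at this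
      simp [w] at this h1
      omega
    have h5 : K ≤ hammingDist z y := by
      rw [hammingDist]
      conv_lhs => rw [← Fintype.card_fin K]
      exact card_le_card_of_injOn (Fin.castAdd m) (fun i _ => by simpa [y] using h4 i)
        (Fin.castAdd_injective _ _).injOn
    have : (K : ℝ) ≤ hammingDist z y := by exact_mod_cast h5
    linarith
  have := Fintype.card_le_of_injective
    (fun (j : Fin m) (i : Fin K) => (f ⟨_, he j⟩).1 (Fin.castAdd m i)) fun j k e => by
      have h1 : f ⟨_, he j⟩ = f ⟨_, he k⟩ := Subtype.ext <| funext fun i => by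
        refine Fin.addCases (fun i => congrFun e i) (fun i => ?_) i
        rw [key, key]
      have h2 := congrFun (congrArg Subtype.val (hf.1 h1)) (Fin.natAdd K j)
      by_contra hjk
      simp [x, Function.update_of_ne, hjk] at h2
  simp [Fintype.card_units_int] at this
  omega

end Pool.Agent.Results.MP_ca8ef0_co.NotUniform
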